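import Pool.Agent.N179.PC.Defs

/-!
# Two systems of classes and products with members of an independent family: definitions
-/

set_option autoImplicit false

universe u

namespace Pool.Agent.N179.AB

open Pool.Agent.TH125.Gal Pool.Agent.N179.GR.S Pool.Agent.N179.PC
open Pool.Agent.H914 Pool.Agent.H914.VarClass Pool.Agent.H914.VarClass.Obj
  Pool.Agent.H914.WeilCohomology

section Alg

variable {K : Type} [Field K] {A : Type} [Ring A] [Algebra K A]

/-- An element of one of the sets `S i` is zero if the traces of its products with the elements of all
the sets `S j` are zero. -/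
def NondegOn (S : ℕ → Set A) (tr : A →ₗ[K] K) : Prop :=
  ∀ i, ∀ a ∈ S i, (∀ j, ∀ b ∈ S j, tr (a * b) = 0) → a = 0

end Alg

variable {k : Type u} [Field k] {𝒱 : VarClass k} {ops : CycleOps 𝒱}
  {W : WeilCohomology.{u, 0} ops} {Γ : Type} [Group Γ]

/-- The classes on `X` in the system `S` are in the system `S'`. -/
def SubIn (S S' : Classes W) (X : 𝒱.Obj) : Prop := MapStable id (S X) (S' X)

/-- The factor `P`: the semi-invariant classes are linear combinations of Hodge classes, there is a
zero-cycle of degree different from zero, the Hodge conjecture is true for `P` (the Hodge classes are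
rational combinations of classes of cycles), and the class of a cycle is zero if all its intersection
numbers with cycles are zero. -/
structure AlgFactor (T : HodgeData W Γ) (P : 𝒱.Obj) : Prop where
  factor : IsFactor T P
  hodge : MapStable id (T.hodge P) (algClasses W P)
  num : NondegOn (algClasses W P) (W.tr P)

/-- For the products `Y` over `Z` without indices in `E`: the classes on `Y` in the system `S` are in
the system `S'` if and only if this is so for `Z`. -/
def PairReduces (T : HodgeData W Γ) {ι : Type} (V : ι → GRep W.K Γ) (Z : 𝒱.Obj) (E : Set ι)
    (S S' : Classes W) : Prop :=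
  ∀ (L : List (ι × 𝒱.Obj)) (Y : 𝒱.Obj), Products T V Z L Y →
    (∀ x ∈ L, x.1 ∉ E ∧ AlgFactor T x.2) → (SubIn S S' Y ↔ SubIn S S' Z)

/-- `E U` is the set of the exceptional indices with respect to the representation `U`: it is finite; no
`j ≠ i` is exceptional with respect to `V i`; for every variety `Z`, the number of the exceptional
indices with respect to the cohomology of `Z` is at most one half of `b - b'`, where `b` is the sum of
the Betti numbers and `b'` is the dimension of the span of the semi-invariant classes; and if the
cohomology of `Z` is generated by finitely many representations `U a` (for instance by the cohomology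
of a variety `Z'` of which `Z` is a power), then `PairReduces` is true for the union of the `E (U a)`, all
systems `S` of Hodge classes and all systems `S'`. -/
structure PairSets (T : HodgeData W Γ) {ι : Type} (V : ι → GRep W.K Γ)
    (E : GRep W.K Γ → Set ι) : Prop where
  finite : ∀ U, (E U).Finite
  self : ∀ i, E (V i) ⊆ {i}
  variety : ∀ Z : 𝒱.Obj, 2 * (E (coh (T.var Z))).ncard + (semiSpan (coh (T.var Z))).dim ≤
    dim (coh (T.var Z))
  reduces : ∀ (m : ℕ) (U : Fin m → GRep W.K Γ) (Z : 𝒱.Obj), GeneratedBy U (T.var Z) →
    ∀ S S' : Classes W, IsSystem W S → IsSystem W S' →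
      (∀ X, MapStable id (S X) (T.hodge X)) → PairReduces T V Z (⋃ a, E (U a)) S S'

end Pool.Agent.N179.AB
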