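import Pool.Agent.N179.AB.Defs
import Pool.Agent.N179.PC.Fin
import Pool.Agent.N179.FO.Fin

/-!
# Two systems of classes and products with members of an independent family: the theorem
-/

set_option autoImplicit false
set_option linter.unusedSectionVars false

open CategoryTheory AlgebraicGeometry

universe u

namespace Pool.Agent.N179.AB

open Module Pool.Agent.TH125.Gal Pool.Agent.N179.GR Pool.Agent.N179.GR.S Pool.Agent.N179.PC

open Pool.Agent.H914 Pool.Agent.H914.VarClass Pool.Agent.H914.VarClass.Obj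
  Pool.Agent.H914.WeilCohomology Pool.Agent.W552 Pool.Agent.H281R3.HT

variable {k : Type u} [Field k] {𝒱 : VarClass k} {ops : CycleOps 𝒱}
  {W : WeilCohomology.{u, 0} ops} {Γ : Type} [Group Γ]

theorem homEqNum_of {X : 𝒱.Obj} (h : NondegOn (algClasses W X) (W.tr X)) : HomEqNum W X := by
  intro j hj z hz h0
  refine h j _ ⟨z, hz, rfl⟩ fun i b hb => ?_
  obtain ⟨w, hw, rfl⟩ := hb
  by_cases hij : j + i = X.dim
  · have h1 : X.IsCyc (X.dim - j) w := by rwa [show X.dim - j = i by omega]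
    have h2 : X.IsCyc X.dim (ops.mul z w) := hij ▸ ops.mul_mem hz hw
    rw [← W.cl_mul, W.tr_cl h2, h0 w h1, Rat.cast_zero]
  · exact W.tr_eq_zero (W.mul_mem (alg_gr ⟨z, hz, rfl⟩) (alg_gr ⟨w, hw, rfl⟩)) (by omega)

theorem alg_spn {S : Classes W} (hS : IsSystem W S) {X : 𝒱.Obj} {j : ℕ} {a : W.H X}
    (ha : a ∈ Submodule.span W.K (algClasses W X j)) : a ∈ spn S X j :=
  Submodule.span_mono (fun c hc => hS.alg X j c hc) ha

theorem coord_inr' {P : 𝒱.Obj} (s : SB W P) {i : Fin s.NT} {x : W.H P}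
    (hx : x ∈ algSpan W P) : s.e.coord (Sum.inr i) x = 0 :=
  FG.coord_inr (X := (⟨P, 1⟩ : GVar W Unit)) s hx i

/-- **One step.** -/
theorem stepP {P Y : 𝒱.Obj} (hDX : HomEqNum W P) {S S' : Classes W} (hS : IsSystem W S)
    (hS' : IsSystem W S') (hd : ∀ X j, S X j ⊆ W.gr X (2 * j))
    (hT : ∀ j, spn S Y j ≤ spn S' Y j) {j : ℕ} {z : W.H (P.prod Y)}
    (hz : z ∈ spn S (P.prod Y) j) (hs : ∀ ψ, ctr2 ψ z ∈ algSpan W P) :
    z ∈ spn S' (P.prod Y) j := by
  obtain ⟨s⟩ := exists_SB hDX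
  rw [Pool.Agent.TH125.Gal.expand s.e z, Fintype.sum_sum_type]
  refine Submodule.add_mem _ (Submodule.sum_mem _ fun l _ => ?_)
    (Submodule.sum_mem _ fun i _ => ?_)
  swap
  · have h3 : ctr (Z := Y) (s.e.coord (Sum.inr i)) z = 0 := by
      refine (Module.forall_dual_apply_eq_zero_iff W.K _).1 fun ψ => ?_
      rw [ctr_comm, coord_inr' s (hs ψ)]
    rw [h3, map_zero, mul_zero]
    exact Submodule.zero_mem _
  have hzd : z ∈ W.gr (P.prod Y) (2 * j) := (Submodule.span_le.2 (hd _ _)) hz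
  have hdeg := FO.ctr_gr s l hzd
  by_cases hjl : s.jC l ≤ j
  · have hx : ctr (Z := Y) (s.e.coord (Sum.inl l)) z ∈ spn S Y (j - s.jC l) := by
      rw [FO.ctr_push]
      apply hS.isSys.push
      have h3 : (s.uC l : W.H P) ∈ spn S P (P.dim - s.jC l) :=
        alg_spn hS (Pool.Agent.TH125.Gal.algSpan_gr (s.uC l).2 (FO.uC_gr s l))
      have h4 := hS.isSys.mul (P.dim - s.jC l) j _ _ (hS.isSys.map (fst P Y) _ _ h3) hz
      have h5 := jC_le s l
      rwa [show P.dim - s.jC l + j = P.dim + (j - s.jC l) by omega] at h4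
    have h3 : (s.bC l : W.H P) ∈ spn S' P (s.jC l) := alg_spn hS' (Submodule.subset_span (s.alg l))
    have h4 := hS'.isSys.mul (s.jC l) (j - s.jC l) _ _ (hS'.isSys.map (fst P Y) _ _ h3)
      (hS'.isSys.map (snd P Y) _ _ (hT _ hx))
    rw [Nat.add_sub_cancel' hjl] at h4
    rw [s.e_inl]
    exact h4
  · rw [if_neg (by omega), Submodule.mem_bot] at hdeg
    rw [hdeg, map_zero, mul_zero]
    exact Submodule.zero_mem _

/-- The converse. -/
theorem convP {P Y : 𝒱.Obj} (hpt : ∃ a ∈ algClasses W P P.dim, W.tr P a ≠ 0)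
    {S S' : Classes W} (hS : IsSystem W S) (hS' : IsSystem W S')
    (hT : ∀ j, spn S (P.prod Y) j ≤ spn S' (P.prod Y) j) (j : ℕ) : spn S Y j ≤ spn S' Y j := by
  intro c hc
  have h3 := hT j (hS.isSys.map (snd P Y) _ _ hc)
  obtain ⟨a, ha, ha0⟩ := hpt
  have h4 := hS'.isSys.push j _ (hS'.isSys.mul P.dim j _ _
    (hS'.isSys.map (fst P Y) _ _ (alg_spn hS' (Submodule.subset_span ha))) h3)
  rw [W.push_snd] at h4
  exact (Submodule.smul_mem_iff _ ha0).1 h4

variable {T : HodgeData W Γ}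

/-- the inclusion of systems in terms of the spans -/
theorem subIn_iff (hT : IsHodgeTheory T) {S S' : Classes W}
    (hS' : IsSystem W S') (hSh : ∀ X, MapStable id (S X) (T.hodge X)) (X : 𝒱.Obj) :
    SubIn S S' X ↔ ∀ j, spn S X j ≤ spn (inter S' T.hodge) X j := by
  constructor
  · intro h j
    exact Submodule.span_mono fun x hx => ⟨h j x hx, hSh X j x hx⟩
  · intro h j v hv
    have h1 := h j (Submodule.subset_span hv)
    obtain ⟨n, c, a, ha⟩ := (Submodule.mem_span_set').1 h1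
    obtain ⟨r, hr⟩ := hT.rational X j n (fun i => (a i : W.H X)) c (fun i => (a i).2.2)
      (by rw [ha]; exact hSh X j v hv)
    rw [ha] at hr
    change v ∈ S' X j
    rw [hr]
    have hrat := hS'.rat X j
    clear ha hr
    refine Finset.sum_induction _ (fun x => x ∈ S' X j) (fun x y hx hy => hrat.add x hx y hy)
      hrat.zero fun i _ => hrat.smul _ _ (a i).2.1

theorem tower_pair [IsAlgClosed W.K] (hT : IsHodgeTheory T) {ι : Type} {V : ι → GRep W.K Γ}
    {Z : 𝒱.Obj} {L : List (ι × 𝒱.Obj)} {Y : 𝒱.Obj} {m : ℕ} {E : Set ι}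
    {U : Fin m → GRep W.K Γ} {S S' : Classes W} (hS : IsSystem W S) (hS' : IsSystem W S')
    (hSh : ∀ X, MapStable id (S X) (T.hodge X))
    (hU : ∀ i ∉ E, ∀ a, Spl (fl (V i)) {fl (U a)})
    (hV : ∀ i ∉ E, ∀ j ∉ E, j ≠ i → Spl (fl (V i)) {fl (V j)})
    (hZ : GeneratedBy U (T.var Z)) (hY : Products T V Z L Y) :
    (∀ x ∈ L, x.1 ∉ E ∧ AlgFactor T x.2) →
    ((∀ j, spn S Y j ≤ spn S' Y j) ↔ ∀ j, spn S Z j ≤ spn S' Z j) := by
  induction hY with
  | base => exact fun _ => Iff.rfl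
  | @step L Y i P hY hi hP ih =>
    intro hL
    have hL' := fun x hx => hL x (List.mem_cons_of_mem (i, P) hx)
    obtain ⟨hiE, hF⟩ := hL (i, P) List.mem_cons_self
    rw [← ih hL']
    refine ⟨fun h j => convP hF.factor.point hS hS' h j, fun h j z hz => ?_⟩
    refine stepP (homEqNum_of hF.num) hS hS'
      (fun X j c hc => hT.degree X j (hSh X j c hc)) h hz fun ψ => ?_
    have h6 : ∀ y : W.H P, (full (W.H P) (algR (T.act P))).Eig y → y ∈ algSpan W P := by
      intro y hy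
      have h7 := hF.factor.twisted y hy
      refine (Submodule.span_le.2 fun c hc => ?_) h7
      obtain ⟨i', hci, hg⟩ := hc
      have h8 := hT.spans P i' c hci hg
      exact Submodule.span_mono (fun x hx => Set.mem_iUnion.2 ⟨i', hF.hodge i' x hx⟩) h8
    have h5 := SP.slices (V := V) (Z := T.var Z) (Y := T.var Y) (P := T.var P)
      (υ := (show Acts (T.var P) (T.var Y) from T.act (P.prod Y))) hZ (hY.tower hT) (i := i)
      (hU i hiE) (fun x hx => by
        obtain ⟨y, hy, rfl⟩ := List.mem_map.1 hx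
        exact hV i hiE y.1 (hL' y hy).1 (hi y hy)) hP
      ⟨hT.natural (fst P Y), hT.natural (snd P Y)⟩ (z := z) ?_ ψ
    · exact (Submodule.span_le.2 fun y hy => h6 y hy) h5
    · -- `z` is semi-invariant
      refine ⟨⊤, inferInstance, fun g _ => ⟨(T.χ g : W.K) ^ j, ?_⟩⟩
      have h7 : spn S (P.prod Y) j ≤ LinearMap.eqLocus
          ((show Γ →* (W.H (P.prod Y) ≃ₐ[W.K] W.H (P.prod Y)) from
            T.act (P.prod Y)) g).toLinearMap
          (((T.χ g : W.K) ^ j) • LinearMap.id) :=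
        Submodule.span_le.2 fun c hc => hT.fixes (P.prod Y) j c (hSh _ j c hc) g
      exact h7 hz

/-- **The theorem.** -/
theorem final (hK : Nonempty (W.K ≃+* ℂ)) {ι : Type} (hT : IsHodgeTheory T)
    {V : ι → GRep W.K Γ} (hV : Family V) :
    ∃ E : GRep W.K Γ → Set ι, PairSets T V E := by
  obtain ⟨e⟩ := hK
  have halg : IsAlgClosed W.K := IsAlgClosed.of_ringEquiv ℂ W.K e.symm
  refine ⟨Exc V, fun U => (exceptional e hV U).finite, ?_, ?_,
    fun m U Z hZ S S' hS hS' hSh L Y hY hL => ?_⟩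
  · intro j i hi
    by_contra h
    exact hi (hV.pair h)
  · intro Z
    refine (exceptional e hV (coh (T.var Z))).card_form
      ⟨(LinearMap.mul W.K (W.H Z)).compr₂ (W.tr Z), fun x hx => W.nondeg x fun y => hx y,
        T.χ ^ Z.dim, fun g (x y : W.H Z) => ?_⟩
    have h1 := hT.trace Z g (x * y)
    rw [map_mul] at h1
    rw [MonoidHom.pow_apply, Units.val_pow_eq_pow_val]
    exact h1
  · rw [subIn_iff hT hS' hSh, subIn_iff hT hS' hSh]
    refine tower_pair hT (U := U) (E := ⋃ a, Exc V (U a)) hS (hS'.inter hT.system) hSh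
      (fun i hi a => ?_) (fun i _ j _ hij => hV.pair hij.symm) hZ hY hL
    by_contra h
    exact hi (Set.mem_iUnion.2 ⟨a, h⟩)

end Pool.Agent.N179.AB
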